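import Mathlib
import Pool.Agent.H82.APMulti

/-!
# Two-stage group testing with arithmetic-progression tests: a lower bound

Every successful two-stage procedure whose Stage 1 tests are arithmetic progressions in `[n]` and
which uses at most `D * k` Stage 2 queries needs at least `c * (log n)^2 / (1 + log (log n / k))`
Stage 1 tests, for all `1 ≤ k ≤ c * log n`.
-/

set_option autoImplicit false

namespace Pool.Agent.Results.MP_8aa41f_lc.LowerBound

open Finset Filter Asymptotics

/-- `T` is an arithmetic progression `{a, a + d, ..., a + l d}`, with `a, d ≥ 1` and `l ≥ 0`,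
contained in `[n] = {1, ..., n}`. -/
def IsAP (n : ℕ) (T : Finset ℕ) : Prop :=
  T ⊆ Icc 1 n ∧ ∃ a d l : ℕ, 1 ≤ a ∧ 1 ≤ d ∧ T = (range (l + 1)).image (fun j => a + d * j)

/-- The Stage 1 answers for the hidden set `S`: the `i`-th answer tells whether `T i ∩ S = ∅`. -/
def answers {m : ℕ} (T : Fin m → Finset ℕ) (S : Finset ℕ) : Fin m → Bool :=
  fun i => decide (Disjoint (T i) S)

/-- The two-stage procedure with Stage 1 tests `T 0, ..., T (m - 1)` and Stage 2 queries `J o`
(chosen as a function of the Stage 1 answers `o`) makes at most `q` Stage 2 queries, and the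
answers from both stages determine every hidden set `S ⊆ [n]` with `|S| ≤ k`. -/
def Succeeds (n k q : ℕ) {m : ℕ} (T : Fin m → Finset ℕ) (J : (Fin m → Bool) → Finset ℕ) : Prop :=
  (∀ o, (J o).card ≤ q) ∧
  ∀ S S' : Finset ℕ, S ⊆ Icc 1 n → S' ⊆ Icc 1 n → S.card ≤ k → S'.card ≤ k →
    answers T S = answers T S' → S ∩ J (answers T S) = S' ∩ J (answers T S) → S = S'

theorem ineq {n k m D B : ℕ} (hk : 1 ≤ k) (hkB : k ≤ B) (hBn : B ≤ n) (hkn : 2 * k ≤ n)
    (T : Fin m → Finset ℕ) (J : (Fin m → Bool) → Finset ℕ)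
    (hT : ∀ i, IsAP n (T i)) (hS : Succeeds n k (D * k) T J) :
    Real.log n - Real.log (2 * k) ≤ m / B * (1 + 6 * Real.log (B / k)) +
      (D * Real.log 2 + (Real.log 4 + 4) * B + 2 * Real.log (m + 1)) := by
  set N : ℕ := n / k with hNdef
  have hN : 1 ≤ N := by
    rw [hNdef]
    exact (Nat.one_le_div_iff (by omega)).mpr (by omega)
  have hkN : k * N ≤ n := Nat.mul_div_le n k
  have hB : 1 ≤ B := hk.trans hkB
  have hkpos : (0 : ℝ) < k := by exact_mod_cast hk
  have hBpos : (0 : ℝ) < B := by exact_mod_cast hB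
  have hNpos : (0 : ℝ) < N := by exact_mod_cast hN
  have hnpos : (0 : ℝ) < n := by
    have : 0 < n := by omega
    exact_mod_cast this
  set M : ℕ := Nat.lcmUpto B with hMdef
  have hMpos : 0 < M := Nat.lcmUpto_pos B
  have hMd : ∀ d, 1 ≤ d → d < B → d ∣ M := by
    intro d h1 h2
    exact Finset.dvd_lcm (f := id) (mem_Icc.mpr ⟨h1, h2.le⟩)
  set r : ℝ := Real.log (B / k) with hr
  have hr0 : 0 ≤ r := by
    apply Real.log_nonneg
    rw [le_div_iff₀ hkpos, one_mul]
    exact_mod_cast hkB
  have hexp : Real.exp (-r) = k / B := by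
    rw [Real.exp_neg, hr, Real.exp_log (by positivity), inv_div]
  have hT' : ∀ i, T i ⊆ range (n + 1) ∧
      ∃ a d L : ℕ, T i = (range L).image (fun j => a + d * j) := by
    intro i
    obtain ⟨h1, a, d, l, _, _, h2⟩ := hT i
    refine ⟨?_, a, d, l + 1, h2⟩
    intro x hx
    have := mem_Icc.mp (h1 hx)
    rw [mem_range]
    omega
  have key := H82.multi hN hkN hB hMpos hMd T J hT' hS.1 hS.2 r hr0
  rw [hexp] at key
  -- take logarithms
  have h1 : ((1 : ℝ) + k / B) ^ m ≤ Real.exp (m * (k / B)) := by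
    have h2 : 1 + (k : ℝ) / B ≤ Real.exp (k / B) := by
      have := Real.add_one_le_exp ((k : ℝ) / B)
      linarith
    calc (1 + (k : ℝ) / B) ^ m ≤ (Real.exp (k / B)) ^ m :=
          pow_le_pow_left₀ (by positivity) h2 m
      _ = Real.exp (m * (k / B)) := by rw [← Real.exp_nat_mul]
  have h3 : (N : ℝ) ^ k * Real.exp (-(r * (m * (((n + 1 : ℕ) : ℝ) / B + 1) / N))) ≤
      2 ^ (D * k) * ((M : ℝ) * (m + 1) ^ 2) ^ k * Real.exp (m * (k / B)) :=
    key.trans (mul_le_mul_of_nonneg_left h1 (by positivity))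
  have hMR : (0 : ℝ) < M := by exact_mod_cast hMpos
  have h4 := Real.log_le_log (by positivity) h3
  rw [Real.log_mul (by positivity) (Real.exp_pos _).ne', Real.log_exp,
    Real.log_mul (by positivity) (Real.exp_pos _).ne', Real.log_exp,
    Real.log_mul (by positivity) (by positivity), Real.log_pow, Real.log_pow, Real.log_pow,
    Real.log_mul (by positivity) (by positivity), Real.log_pow] at h4
  have hM_log : Real.log M ≤ (Real.log 4 + 4) * B := by
    rw [hMdef, ← Chebyshev.psi_eq_log_lcmUpto]
    exact Chebyshev.psi_le_const_mul_self hBpos.le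
  -- N ≥ n / (2k)
  have hN2 : (n : ℝ) / (2 * k) ≤ N := by
    have h5 : n < k * (N + 1) := by
      rw [hNdef]
      exact Nat.lt_mul_div_succ n (by omega)
    have h6 : (n : ℝ) < k * (N + 1) := by exact_mod_cast h5
    have h7 : (k : ℝ) * (N + 1) ≤ k * (2 * N) := by
      apply mul_le_mul_of_nonneg_left _ hkpos.le
      have : (1 : ℝ) ≤ N := by exact_mod_cast hN
      linarith
    rw [div_le_iff₀ (by positivity)]
    linarith
  have hlogN : Real.log n - Real.log (2 * k) ≤ Real.log N := by
    rw [← Real.log_div hnpos.ne' (by positivity)]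
    exact Real.log_le_log (by positivity) hN2
  have hfrac : (((n + 1 : ℕ) : ℝ) / B + 1) / N ≤ 6 * k / B := by
    rw [div_le_iff₀ hNpos]
    have h5 : (((n + 1 : ℕ) : ℝ) / B + 1) ≤ 3 * n / B := by
      rw [div_add_one hBpos.ne', div_le_div_iff_of_pos_right hBpos]
      push_cast
      have h6 : (1 : ℝ) ≤ n := by
        have : 1 ≤ n := by omega
        exact_mod_cast this
      have h7 : (B : ℝ) ≤ n := by exact_mod_cast hBn
      linarith
    refine h5.trans ?_
    calc 3 * (n : ℝ) / B = 6 * k / B * (n / (2 * k)) := by field_simp; ring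
      _ ≤ 6 * k / B * N := mul_le_mul_of_nonneg_left hN2 (by positivity)
  have h5 : r * (m * (((n + 1 : ℕ) : ℝ) / B + 1) / N) ≤ r * (m * (6 * k / B)) := by
    apply mul_le_mul_of_nonneg_left _ hr0
    rw [mul_div_assoc]
    exact mul_le_mul_of_nonneg_left hfrac (by positivity)
  have h6 : (k : ℝ) * Real.log N ≤ k * (m / B * (1 + 6 * r) +
      (D * Real.log 2 + Real.log M + 2 * Real.log (m + 1))) := by
    push_cast at h4 h5
    have h7 : (k : ℝ) * (m / B * (1 + 6 * r) +
      (D * Real.log 2 + Real.log M + 2 * Real.log (m + 1))) =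
      r * (m * (6 * k / B)) + (D * k * Real.log 2 + k * (Real.log M + 2 * Real.log (m + 1))
        + m * (k / B)) := by
      field_simp
      ring
    rw [h7]
    linarith
  have h7 := le_of_mul_le_mul_left h6 hkpos
  linarith

/-- **Lower bound.** For every `D` there is `c > 0` such that for all large `n` and all
`1 ≤ k ≤ c log n`, every successful two-stage procedure with arithmetic-progression Stage 1
tests and at most `D k` Stage 2 queries has at least `c (log n)^2 / (1 + log (log n / k))`
Stage 1 tests. -/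
theorem result (D : ℕ) : ∃ c : ℝ, 0 < c ∧ ∃ n₀ : ℕ, ∀ n k m : ℕ, n₀ ≤ n → 1 ≤ k →
    (k : ℝ) ≤ c * Real.log n →
    ∀ (T : Fin m → Finset ℕ) (J : (Fin m → Bool) → Finset ℕ),
      (∀ i, IsAP n (T i)) → Succeeds n k (D * k) T J →
      c * (Real.log n) ^ 2 / (1 + Real.log (Real.log n / k)) ≤ m := by
  set κ : ℝ := Real.log 4 + 4 with hκ
  have hlog4 : 0 ≤ Real.log 4 := Real.log_nonneg (by norm_num)
  have hκ4 : 4 ≤ κ := by linarith
  set δ : ℝ := 1 / (8 * κ) with hδ
  have hδpos : 0 < δ := by positivity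
  have hδ1 : δ ≤ 1 := by
    rw [hδ, div_le_one (by positivity)]
    linarith
  refine ⟨δ / 24, by positivity, ?_⟩
  -- asymptotic facts about L = log n
  have hlittle : (fun L : ℝ => Real.log (2 * L) + D * Real.log 2 + 2 * Real.log (L ^ 2 + 1))
      =o[atTop] (fun L : ℝ => L) := by
    apply IsLittleO.add
    · apply IsLittleO.add
      · have h1 : Tendsto (fun x : ℝ => 2 * x) atTop atTop :=
          tendsto_id.const_mul_atTop (by norm_num)
        have h2 := Real.isLittleO_log_id_atTop.comp_tendsto h1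
        exact h2.trans_isBigO (isBigO_const_mul_self _ _ _)
      · exact isLittleO_const_id_atTop _
    · apply IsLittleO.const_mul_left
      have h1 : (fun L : ℝ => Real.log (L ^ 2 + 1)) =O[atTop] (fun L : ℝ => Real.log L) := by
        apply IsBigO.of_bound 3
        filter_upwards [eventually_ge_atTop 2] with L hL
        have h2 : 0 ≤ Real.log (L ^ 2 + 1) := Real.log_nonneg (by nlinarith)
        have h3 : 0 ≤ Real.log L := Real.log_nonneg (by linarith)
        rw [Real.norm_eq_abs, Real.norm_eq_abs, abs_of_nonneg h2, abs_of_nonneg h3]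
        have h4 : Real.log (L ^ 2 + 1) ≤ Real.log (L ^ 3) := by
          apply Real.log_le_log (by positivity)
          nlinarith
        rw [Real.log_pow] at h4
        exact_mod_cast h4
      exact h1.trans_isLittleO Real.isLittleO_log_id_atTop
  have hev1 := hlittle.bound (show (0 : ℝ) < 1 / 8 by norm_num)
  have hlogtend : Tendsto (fun n : ℕ => Real.log (n : ℝ)) atTop atTop :=
    Real.tendsto_log_atTop.comp tendsto_natCast_atTop_atTop
  have hev2 := hlogtend.eventually (hev1.and (eventually_ge_atTop (max 2 (2 / δ))))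
  have hev3 : ∀ᶠ n : ℕ in atTop, 2 * Real.log (n : ℝ) ≤ n := by
    have h1 := Real.isLittleO_log_id_atTop.bound (show (0 : ℝ) < 1 / 2 by norm_num)
    have h2 := (tendsto_natCast_atTop_atTop (R := ℝ)).eventually
      (h1.and (eventually_ge_atTop 1))
    filter_upwards [h2] with n hn
    have h3 : 0 ≤ Real.log (n : ℝ) := Real.log_nonneg hn.2
    have h4 := hn.1
    simp only [id, Real.norm_eq_abs] at h4
    rw [abs_of_nonneg h3, abs_of_nonneg (by linarith [hn.2])] at h4
    linarith
  obtain ⟨n₀, hn₀⟩ := eventually_atTop.mp (hev2.and hev3)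
  refine ⟨n₀, ?_⟩
  intro n k m hn hk hkL T J hT hS
  obtain ⟨⟨h1, h2⟩, h3⟩ := hn₀ n hn
  set L : ℝ := Real.log n with hL
  have hL2 : 2 ≤ L := (le_max_left _ _).trans h2
  have hLδ : 2 / δ ≤ L := (le_max_right _ _).trans h2
  have hLpos : 0 < L := by linarith
  have hkpos : (0 : ℝ) < k := by exact_mod_cast hk
  have hkL' : (k : ℝ) ≤ L := by
    refine hkL.trans ?_
    have : δ / 24 * L ≤ 1 * L := mul_le_mul_of_nonneg_right (by linarith) hLpos.le
    linarith
  have hlogLk : 0 ≤ Real.log (L / k) := by
    apply Real.log_nonneg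
    rw [le_div_iff₀ hkpos, one_mul]
    exact hkL'
  have hden : 0 < 1 + Real.log (L / k) := by linarith
  rw [div_le_iff₀ hden]
  rcases le_or_gt ((m : ℝ)) (L ^ 2) with hm | hm
  · -- main case
    set B : ℕ := ⌊δ * L⌋₊ with hB
    have hBle : (B : ℝ) ≤ δ * L := Nat.floor_le (by positivity)
    have hδL : 2 ≤ δ * L := by
      rw [div_le_iff₀ hδpos] at hLδ
      linarith
    have hBge : δ * L / 2 ≤ B := by
      have := Nat.lt_floor_add_one (δ * L)
      linarith
    have hkB : k ≤ B := by
      have h4 : (k : ℝ) ≤ B := by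
        have : δ / 24 * L ≤ δ * L / 2 := by nlinarith
        linarith
      exact_mod_cast h4
    have hBL : (B : ℝ) ≤ L := by
      have : δ * L ≤ 1 * L := mul_le_mul_of_nonneg_right hδ1 hLpos.le
      linarith
    have hBn : B ≤ n := by
      have h4 : (B : ℝ) ≤ n := by linarith
      exact_mod_cast h4
    have hkn : 2 * k ≤ n := by
      have h4 : (2 : ℝ) * k ≤ n := by linarith
      exact_mod_cast h4
    have hmain := ineq hk hkB hBn hkn T J hT hS
    have hBpos : (0 : ℝ) < B := by
      have : 0 < B := by omega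
      exact_mod_cast this
    rw [Real.norm_eq_abs, Real.norm_eq_abs, abs_of_pos hLpos] at h1
    have h4 := (le_abs_self _).trans h1
    have h5 : Real.log (2 * k) ≤ Real.log (2 * L) :=
      Real.log_le_log (by positivity) (by linarith)
    have h6 : Real.log ((m : ℝ) + 1) ≤ Real.log (L ^ 2 + 1) :=
      Real.log_le_log (by positivity) (by linarith)
    have h7 : κ * B ≤ L / 8 := by
      calc κ * B ≤ κ * (δ * L) := mul_le_mul_of_nonneg_left hBle (by linarith)
        _ = L / 8 := by rw [hδ]; field_simp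
    have h8 : L / 2 ≤ m / B * (1 + 6 * Real.log (B / k)) := by linarith
    have h9 : Real.log (B / k) ≤ Real.log (L / k) := by
      apply Real.log_le_log (by positivity)
      exact div_le_div_of_nonneg_right hBL hkpos.le
    have h10 : (m : ℝ) / B * (1 + 6 * Real.log (B / k)) ≤
        m / B * (6 * (1 + Real.log (L / k))) := by
      apply mul_le_mul_of_nonneg_left _ (by positivity)
      linarith
    have h11 : L / 2 ≤ m / B * (6 * (1 + Real.log (L / k))) := h8.trans h10
    have h12 : L / 2 * B ≤ m * (6 * (1 + Real.log (L / k))) := by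
      have h13 := mul_le_mul_of_nonneg_right h11 hBpos.le
      calc L / 2 * B ≤ m / B * (6 * (1 + Real.log (L / k))) * B := h13
        _ = m * (6 * (1 + Real.log (L / k))) := by field_simp
    have h14 : L / 2 * (δ * L / 2) ≤ L / 2 * B := mul_le_mul_of_nonneg_left hBge (by linarith)
    nlinarith
  · -- trivial case
    have h4 : δ / 24 * L ^ 2 ≤ 1 * L ^ 2 := mul_le_mul_of_nonneg_right (by linarith) (by positivity)
    have h5 : (m : ℝ) * 1 ≤ m * (1 + Real.log (L / k)) :=
      mul_le_mul_of_nonneg_left (by linarith) (by positivity)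
    linarith

end Pool.Agent.Results.MP_8aa41f_lc.LowerBound
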